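import Pool.Agent.TH855.Conv.Main

set_option autoImplicit false

namespace Pool.Agent.Results.MP_830418_an.ContainsFree

/-- For every `p ∈ (1,∞)`, `p ≠ 2`, and every discrete group `G` containing a nonabelian free
group there is a nonnegative function `f` on `G` which is a `p`-convolver while `f*` is not. -/
theorem result :
    ∀ p : ℝ, 1 < p → p ≠ 2 → ∀ (G : Type) [Group G],
      (∃ φ : FreeGroup (Fin 2) →* G, Function.Injective φ) →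
      ∃ f : G → ℂ, (∀ g, 0 ≤ (f g).re ∧ (f g).im = 0) ∧
        (∃ C : ℝ, ∀ ξ : G →₀ ℂ,
          Summable (fun g : G => ‖∑ k ∈ ξ.support, f (g * k⁻¹) * ξ k‖ ^ p) ∧
          ∑' g : G, ‖∑ k ∈ ξ.support, f (g * k⁻¹) * ξ k‖ ^ p
            ≤ C * ∑ k ∈ ξ.support, ‖ξ k‖ ^ p) ∧
        ¬ (∃ C : ℝ, ∀ ξ : G →₀ ℂ,
          Summable (fun g : G =>
            ‖∑ k ∈ ξ.support, starRingEnd ℂ (f ((g * k⁻¹)⁻¹)) * ξ k‖ ^ p) ∧
          ∑' g : G, ‖∑ k ∈ ξ.support, starRingEnd ℂ (f ((g * k⁻¹)⁻¹)) * ξ k‖ ^ p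
            ≤ C * ∑ k ∈ ξ.support, ‖ξ k‖ ^ p) := by
  intro p hp hp2 G _ ⟨φ, hφ⟩
  exact (Pool.TH855.Conv.configOf φ hφ).main hp hp2

end Pool.Agent.Results.MP_830418_an.ContainsFree
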